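import Pool.Agent.Y554.NE.Stm

/-!
Part GROW of the project NE (helper554): the bound for a `t`-connected set (`S_KEY`).
-/

set_option autoImplicit false

namespace Pool.Agent.Y968.NE

open H974 Finset
open Pool.Agent.Y554.NE

theorem ds_comm (a b : Edg) : ds a b = ds b a := by
  unfold ds
  omega

theorem ds_zero {a b c : Edg} (h : ds a b = 0) (h' : ds a c = 0) : ds b c = 0 := by
  unfold ds at *
  omega

theorem ds_self (a : Edg) : ds a a = 0 := by
  unfold ds
  simp

theorem psi_nonneg (n : ℕ) (e : Edg) (s : ℕ) : 0 ≤ psi n e s := by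
  unfold psi q1
  rw [← Real.sqrt_eq_rpow]
  exact Real.sqrt_nonneg _

/-- monotonicity in the length of the edges and in the exponent -/
theorem good_mono {n t τ τ' s : ℕ} {a : ℝ} {k k' : ℕ} {S : Finset Edg} {x : Edg}
    (h : Good n t τ s a k S x) (hτ : τ ≤ τ') (hk : k ≤ k') (ha : 1 ≤ a) :
    Good n t τ' s a k' S x := by
  obtain ⟨Ev, par, rk, h1, h2, h3, h4⟩ := h
  refine ⟨Ev, par, rk, h1, h2, fun y hy hx => ?_, h4.trans ?_⟩
  · obtain ⟨e1, e2, e3⟩ := h3 y hy hx
    exact ⟨e1, e2, e3.trans hτ⟩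
  · refine mul_le_mul_of_nonneg_right ?_ (psi_nonneg _ _ _)
    refine mul_le_mul_of_nonneg_right ?_ (Finset.prod_nonneg fun _ _ => psi_nonneg _ _ _)
    exact pow_le_pow_right₀ ha hk

/-- one step of a chain -/
def stp (t : ℕ) (S : Finset Edg) (u v : Edg) : Prop := u ∈ S ∧ v ∈ S ∧ ds u v ≤ t

open scoped Classical in
/-- the component of `y` -/
noncomputable def cmp (t : ℕ) (S : Finset Edg) (y : Edg) : Finset Edg :=
  S.filter (fun z => Relation.ReflTransGen (stp t S) y z)

open scoped Classical in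
theorem cmp_sub (t : ℕ) (S : Finset Edg) (y : Edg) : cmp t S y ⊆ S := Finset.filter_subset _ _

open scoped Classical in
theorem mem_cmp {t : ℕ} {S : Finset Edg} {y z : Edg} :
    z ∈ cmp t S y ↔ z ∈ S ∧ Relation.ReflTransGen (stp t S) y z := by
  unfold cmp
  rw [Finset.mem_filter]

theorem self_cmp {t : ℕ} {S : Finset Edg} {y : Edg} (hy : y ∈ S) : y ∈ cmp t S y :=
  mem_cmp.2 ⟨hy, Relation.ReflTransGen.refl⟩

theorem cmp_step {t : ℕ} {S : Finset Edg} {y u v : Edg} (hu : u ∈ cmp t S y) (hv : v ∈ S)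
    (h : ds u v ≤ t) : v ∈ cmp t S y := by
  obtain ⟨h1, h2⟩ := mem_cmp.1 hu
  exact mem_cmp.2 ⟨hv, h2.tail ⟨h1, hv, h⟩⟩

theorem cmp_far {t : ℕ} {S : Finset Edg} {y u v : Edg} (hu : u ∈ cmp t S y) (hv : v ∈ S)
    (h : v ∉ cmp t S y) : t < ds u v := by
  by_contra hc
  exact h (cmp_step hu hv (by omega))

/-- induction along the component -/
theorem cmp_ind {t : ℕ} {S : Finset Edg} {y : Edg} (hy : y ∈ S) {P : Edg → Prop} (h0 : P y)
    (hs : ∀ u ∈ cmp t S y, ∀ v ∈ cmp t S y, P u → ds u v ≤ t → P v) : ∀ z ∈ cmp t S y, P z := by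
  intro z hz
  obtain ⟨-, h⟩ := mem_cmp.1 hz
  have key : z ∈ S ∧ P z := by
    induction h with
    | refl => exact ⟨hy, h0⟩
    | tail hab hbc ih =>
      have hb := mem_cmp.2 ⟨hbc.1, hab⟩
      have hc := mem_cmp.2 ⟨hbc.2.1, hab.tail hbc⟩
      exact ⟨hbc.2.1, hs _ hb _ hc (ih hb).2 hbc.2.2⟩
  exact key.2

theorem cmp_conn {t : ℕ} {S : Finset Edg} {y : Edg} (hy : y ∈ S) : conn t (cmp t S y) := by
  intro A hA hne hne'
  by_contra hcon
  push Not at hcon
  by_cases hyA : y ∈ A
  · obtain ⟨z, hz⟩ := hne'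
    rw [Finset.mem_sdiff] at hz
    refine hz.2 (cmp_ind hy (P := fun z => z ∈ A) hyA ?_ z hz.1)
    intro u hu v hv huA huv
    by_contra hvA
    have := hcon u huA v (Finset.mem_sdiff.2 ⟨hv, hvA⟩)
    omega
  · obtain ⟨z, hz⟩ := hne
    refine cmp_ind hy (P := fun z => z ∉ A) hyA ?_ z (hA hz) hz
    intro u hu v hv huA huv hvA
    have := hcon v hvA u (Finset.mem_sdiff.2 ⟨hu, huA⟩)
    rw [ds_comm] at this
    omega

theorem key (hb : S_BASE) (hs : S_START) (hm : S_MERGE) (ho : S_OUT) : S_KEY := by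
  classical
  obtain ⟨C1, hC1, hb⟩ := hb
  obtain ⟨C2, hC2, hs⟩ := hs
  obtain ⟨C3, hC3, hm⟩ := hm
  obtain ⟨C4, hC4, ho⟩ := ho
  obtain ⟨a, ha1, ha2, ha3, ha4⟩ : ∃ a : ℝ, C1 ≤ a ∧ C2 ≤ a ∧ C3 ≤ a ∧ C4 ≤ a :=
    ⟨max (max C1 C2) (max C3 C4), (le_max_left _ _).trans (le_max_left _ _),
      (le_max_right _ _).trans (le_max_left _ _), (le_max_left _ _).trans (le_max_right _ _),
      (le_max_right _ _).trans (le_max_right _ _)⟩
  have ha : 1 ≤ a := hC1.trans ha1
  refine ⟨a, ha, ?_⟩
  intro n t
  induction t with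
  | zero =>
    intro t' S x hn _ ht' hS hx hc
    have h0 : ∀ y ∈ S, ds y x = 0 := by
      by_contra hcon
      push Not at hcon
      obtain ⟨z, hz, hzx⟩ := hcon
      obtain ⟨u, hu, v, hv, huv⟩ := hc (S.filter (fun y => ds y x = 0)) (Finset.filter_subset _ _)
        ⟨x, Finset.mem_filter.2 ⟨hx, ds_self x⟩⟩
        ⟨z, Finset.mem_sdiff.2 ⟨hz, fun h => hzx (Finset.mem_filter.1 h).2⟩⟩
      rw [Finset.mem_filter] at hu
      rw [Finset.mem_sdiff, Finset.mem_filter] at hv
      exact hv.2 ⟨hv.1, ds_zero (Nat.le_zero.1 huv) hu.2⟩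
    have hcard : 1 ≤ S.card := Finset.card_pos.2 ⟨x, hx⟩
    exact good_mono (hb a n t' S x ha1 hn ht' hS hx h0) le_rfl (by omega) ha
  | succ t ih =>
    intro t' S x hn htt' ht' hS hx hc
    by_cases hall : cmp t S x = S
    · have hct : conn t S := by
        rw [← hall]
        exact cmp_conn hx
      exact good_mono (ih t' S x hn (by omega) ht' hS hx hct) (Nat.le_succ t) le_rfl ha
    · have htn : t < n := by omega
      -- the bound for a component
      have hcmp : ∀ b ∈ S, Good n t (t + 1) (max t (dm (cmp t S b))) a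
          (4 * (cmp t S b).card - 3) (cmp t S b) b := by
        intro b hb'
        exact good_mono (ih t (cmp t S b) b hn le_rfl (by omega) ((cmp_sub t S b).trans hS)
          (self_cmp hb') (cmp_conn hb')) (Nat.le_succ t) le_rfl ha
      -- growth
      have grow : ∀ m : ℕ, ∀ U : Finset Edg, (S \ U).card = m → U ⊆ S → U ≠ S → x ∈ U →
          (∀ y ∈ U, ∀ z ∈ S, z ∉ U → t < ds y z) →
          Good n t (t + 1) (max (t + 1) (dm U)) a (4 * U.card - 2) U x →
          Good n t (t + 1) (max (t + 1) (dm S)) a (4 * S.card - 4) S x := by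
        intro m
        induction m using Nat.strong_induction_on with
        | _ m ihm =>
          intro U hUm hUS hUne hxU hcl hG
          have hne : (S \ U).Nonempty := by
            rw [Finset.sdiff_nonempty]
            intro h
            exact hUne (Finset.Subset.antisymm hUS h)
          obtain ⟨u, hu, b, hb', hub⟩ := hc U hUS ⟨x, hxU⟩ hne
          obtain ⟨hbS, hbU⟩ := Finset.mem_sdiff.1 hb'
          have hRS := cmp_sub t S b
          have hbR : b ∈ cmp t S b := self_cmp hbS
          have hRU : ∀ z ∈ cmp t S b, z ∉ U := by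
            refine cmp_ind hbS hbU ?_
            intro v hv w hw hvU hvw hwU
            have := hcl w hwU v (hRS hv) hvU
            rw [ds_comm] at this
            omega
          have hdisj : Disjoint U (cmp t S b) := by
            rw [Finset.disjoint_right]
            exact hRU
          have hfar : ∀ v ∈ U, ∀ w ∈ cmp t S b, t < ds v w := fun v hv w hw =>
            hcl v hv w (hRS hw) (hRU w hw)
          have hM := hm a n t _ _ U (cmp t S b) x b u ha3 hn htn (hUS.trans hS) (hRS.trans hS)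
            hxU hu hbR (by rw [ds_comm]; exact hub) hfar hG (hcmp b hbS)
          have hcard : (U ∪ cmp t S b).card = U.card + (cmp t S b).card :=
            Finset.card_union_of_disjoint hdisj
          have hc1 : 1 ≤ U.card := Finset.card_pos.2 ⟨x, hxU⟩
          have hc2 : 1 ≤ (cmp t S b).card := Finset.card_pos.2 ⟨b, hbR⟩
          have e : 4 * U.card - 2 + (4 * (cmp t S b).card - 3) + 1 =
              4 * (U ∪ cmp t S b).card - 4 := by omega
          rw [e] at hM
          have hU'S : U ∪ cmp t S b ⊆ S := Finset.union_subset hUS hRS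
          by_cases hfin : U ∪ cmp t S b = S
          · rw [hfin] at hM
            exact hM
          · refine ihm (S \ (U ∪ cmp t S b)).card ?_ (U ∪ cmp t S b) rfl hU'S hfin
              (Finset.mem_union_left _ hxU) ?_ (good_mono hM le_rfl (by omega) ha)
            · rw [← hUm]
              apply Finset.card_lt_card
              rw [Finset.ssubset_iff_of_subset
                (Finset.sdiff_subset_sdiff (Finset.Subset.refl S) Finset.subset_union_left)]
              exact ⟨b, hb', fun h => (Finset.mem_sdiff.1 h).2 (Finset.mem_union_right _ hbR)⟩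
            · intro y hy z hz hzn
              rw [Finset.mem_union, not_or] at hzn
              rcases Finset.mem_union.1 hy with hy | hy
              · exact hcl y hy z hz hzn.1
              · exact cmp_far hy hz hzn.2
      have h1 := hs a n t _ (cmp t S x) x ha2 hn ((cmp_sub t S x).trans hS) (self_cmp hx)
        (hcmp x hx)
      have hc1 : 1 ≤ (cmp t S x).card := Finset.card_pos.2 ⟨x, self_cmp hx⟩
      have e1 : 4 * (cmp t S x).card - 3 + 1 = 4 * (cmp t S x).card - 2 := by omega
      rw [e1] at h1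
      have h2 := grow _ (cmp t S x) rfl (cmp_sub t S x) hall (self_cmp hx)
        (fun y hy z hz hzn => cmp_far hy hz hzn) h1
      have h3 := ho a n t t' _ S x ha4 hn htt' ht' hS hx h2
      have hc3 : 1 ≤ S.card := Finset.card_pos.2 ⟨x, hx⟩
      exact good_mono h3 le_rfl (by omega) ha

end Pool.Agent.Y968.NE
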